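import Pool.Agent.H.MP_7f4e02_al.CRank

set_option autoImplicit false

namespace Pool.Agent.Results.MP_7f4e02_al.AbelianByCyclic

open Pool.Agent.H.MP_7f4e02_al

/-- `l` is an eigenvalue of the conjugation by `t` on the space of additive maps from the abelian
group `M / V` to the complex numbers: there is such a map `φ`, not zero, with
`φ (t m t⁻¹) = l φ (m)` (`φ` is written as a function on `K`, of which only the values on `M`
matter). -/
def IsEigenvalue {K : Type} [Group K] (V M : Subgroup K) (t : K) (l : ℂ) : Prop :=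
  ∃ φ : K → ℂ, (∀ a ∈ M, ∀ b ∈ M, φ (a * b) = φ a + φ b) ∧ (∀ v ∈ V, φ v = 0) ∧
    (∀ m ∈ M, φ (t * m * t⁻¹) = l * φ m) ∧ ∃ m ∈ M, φ m ≠ 0

/-- Let `K` be a subgroup of finite index of `G`, let `V ≤ M` be normal subgroups of `K`, `V`
hyper-FC-central in `K`, `M / V` abelian and finitely generated, `K / M` cyclic, generated by the
image of `t`. If `M / V` is generated by three elements, or if all eigenvalues of `t` on `M / V`
of modulus one are roots of unity, then `G` is Malcev coherent. -/
theorem result : ∀ (G : Type) [Group G] (K : Subgroup G) (V M : Subgroup K) (S : Finset K) (t : K),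
    K.FiniteIndex → HyperFC V → M.Normal → M = V ⊔ Subgroup.closure (S : Set K) →
    (∀ a ∈ M, ∀ b ∈ M, a * b * a⁻¹ * b⁻¹ ∈ V) →
    (∀ k : K, ∃ m ∈ M, ∃ i : ℤ, k = m * t ^ i) →
    (S.card ≤ 3 ∨ ∀ l : ℂ, ‖l‖ = 1 → IsEigenvalue V M t l → ∃ n : ℕ, 1 ≤ n ∧ l ^ n = 1) →
    MalcevCoherent G := by
  classical
  intro G _ K V M S t hK hV hMn hS hcomm hgen hcond
  have hVn : V.Normal := hV.normal
  have hVM : V ≤ M := by rw [hS]; exact le_sup_left
  have hSM : ∀ s ∈ S, s ∈ M := fun s hs => by
    rw [hS]; exact (le_sup_right : _ ≤ V ⊔ _) (Subgroup.subset_closure hs)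
  refine ext_main K V M hV hMn hcomm ?_ t hgen ?_
  · refine ⟨S.image (QuotientGroup.mk' V), ?_⟩
    rw [Finset.coe_image, ← MonoidHom.map_closure]
    conv_rhs => rw [hS, Subgroup.map_sup]
    have h1 : V.map (QuotientGroup.mk' V) = ⊥ :=
      (Subgroup.map_eq_bot_iff V).2 (by rw [QuotientGroup.ker_mk'])
    rw [h1, bot_sup_eq]
  · intro l hl hl2 φ h1 h2 h3
    rcases hcond with hcard | hev
    · -- three generators
      let x : Fin 3 → K := fun i => S.toList.getD i 1
      have hx1 : ∀ i, x i ∈ M := by
        intro i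
        by_cases hi : (i : ℕ) < S.toList.length
        · have h4 : x i = S.toList[(i : ℕ)] := List.getD_eq_getElem _ _ hi
          rw [h4]
          exact hSM _ (Finset.mem_toList.1 (List.getElem_mem hi))
        · have h4 : x i = 1 := List.getD_eq_default _ _ (not_lt.1 hi)
          rw [h4]
          exact M.one_mem
      have hx2 : ∀ s ∈ S, s ∈ Set.range x := by
        intro s hs
        obtain ⟨j, hj, hjs⟩ := List.getElem_of_mem (Finset.mem_toList.2 hs)
        have hj3 : j < 3 := by
          have : S.toList.length = S.card := Finset.length_toList S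
          omega
        exact ⟨⟨j, hj3⟩, by
          show S.toList.getD j 1 = s
          rw [List.getD_eq_getElem _ _ hj, hjs]⟩
      refine rank_three V M hMn hVM x hx1 ?_ t l hl hl2 φ h1 h2 h3
      rw [hS]
      refine sup_le_sup le_rfl ((Subgroup.closure_le _).2 fun s hs => ?_)
      exact Subgroup.subset_closure (hx2 s hs)
    · intro m hm
      by_contra hne
      obtain ⟨n, hn, hln⟩ := hev l hl ⟨φ, h1, h3, h2, m, hm, hne⟩
      exact hl2 n hn hln

end Pool.Agent.Results.MP_7f4e02_al.AbelianByCyclic
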