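import Pool.Agent.H.MP_7f4e02_al.Hyper

set_option autoImplicit false

namespace Pool.Agent.Results.MP_7f4e02_al.FreeProductCase

open Pool.Agent.H.MP_7f4e02_al

/-- Q1 holds for groups that are, up to finite index and a Noetherian hyper-FC-central normal
subgroup, freely decomposable: let `N` be a Malcev coherent subgroup of `G` and `K` a subgroup of
`N` of finite index in `G`; suppose that `K` has a normal subgroup `V`, all of whose subgroups are
finitely generated, which is hyper-FC-central in `K`, such that `K / V` is a free product `B * D`
of two nontrivial groups, not both of order two. Then `G` is Malcev coherent. -/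
theorem result : ∀ (G : Type) [Group G] (N K : Subgroup G), K ≤ N → K.FiniteIndex →
    MalcevCoherent N →
    ∀ (V : Subgroup K) [V.Normal], HyperFC V → (∀ U : Subgroup K, U ≤ V → U.FG) →
    ∀ (B D : Type) [Group B] [Group D], Nontrivial B → Nontrivial D →
      ¬ (Nat.card B = 2 ∧ Nat.card D = 2) → Nonempty (K ⧸ V ≃* Monoid.Coprod B D) →
      MalcevCoherent G := by
  intro G _ N K hKN hfi hN V _ hV hVfg B D _ _ hB hD hcard ⟨e⟩
  exact freeProdHyper N K hKN hfi hN V hV hVfg B D hcard e

end Pool.Agent.Results.MP_7f4e02_al.FreeProductCase
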