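import Pool.Agent.H.MP_7f4e02_al.Hyper

set_option autoImplicit false

namespace Pool.Agent.Results.MP_7f4e02_al.HyperFCQuotient

open Pool.Agent.H.MP_7f4e02_al

/-- Malcev coherence is unaffected by factoring out a Noetherian hyper-FC-central normal
subgroup: if `V` is normal and hyper-FC-central in `G` then `G / V` Malcev coherent implies `G`
Malcev coherent, and the converse holds if all subgroups of `V` are finitely generated. -/
theorem result : ∀ (G : Type) [Group G] (V : Subgroup G) [V.Normal], HyperFC V →
    (MalcevCoherent (G ⧸ V) → MalcevCoherent G) ∧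
    ((∀ U : Subgroup G, U ≤ V → U.FG) → MalcevCoherent G → MalcevCoherent (G ⧸ V)) := by
  intro G _ V _ hV
  exact ⟨hyper_up hV, hyper_down hV⟩

end Pool.Agent.Results.MP_7f4e02_al.HyperFCQuotient
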