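import Pool.Agent.H.MP_7f4e02_al.Stable

set_option autoImplicit false

namespace Pool.Agent.Results.MP_7f4e02_al.StableClosure

open Pool.Agent.H.MP_7f4e02_al

/-- Let `N` be a subgroup of finite index `n` in `G`. If the free product of `N` with a free group
of rank `(n - 1) + n * m` is Malcev coherent, then the free product of `G` with a free group of
rank `m` is Malcev coherent. -/
theorem result : ∀ (G : Type) [Group G] (N : Subgroup G), N.FiniteIndex → ∀ m : ℕ,
    MalcevCoherent (Monoid.Coprod N (FreeGroup (Fin ((N.index - 1) + N.index * m)))) →
    MalcevCoherent (Monoid.Coprod G (FreeGroup (Fin m))) := by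
  intro G _ N hN m hM
  exact stable N m hM

end Pool.Agent.Results.MP_7f4e02_al.StableClosure
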